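import Pool.Agent.H862.VP.All

/-!
# Hooley's formula for the individual moduli on logarithmic average, and the zeros modulo `q`

`G x q` is the variance of the problem. Hooley's asymptotic formula `G(x, q) ~ x log q` for all large
moduli `q`, on logarithmic average over every window `q ^ a ≤ x ≤ q ^ b`, `1 ≤ a < b`, is equivalent to
its upper half, to the asymptotic formula for all the Abel means, and to the generalized Riemann
hypothesis together with the pair correlation conjecture (or only with its upper half, or only with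
its lower half) for the zeros of the L-functions of the characters modulo `q`, as `q → ∞`.
Nothing is assumed; in particular the formula (or its upper half) implies the generalized Riemann
hypothesis for all characters.

The proof rests on the unfinished projects `NH13.UV` and `NH13.WV` of an earlier run, which are
completed here (partial fractions of the completed L-functions, von Koch's theorem, assembly).
-/

set_option autoImplicit false

open Complex MeasureTheory Filter Topology Set

namespace Pool.Agent.Results.MP_5d318d_nt.LogAveragePairCorrelation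

/-- `ψ(x; q, a)`, for `0 ≤ a < q` -/
noncomputable def psi (x : ℝ) (q a : ℕ) : ℝ :=
  ∑ n ∈ (Finset.Icc 1 ⌊x⌋₊).filter (fun n => n % q = a), ArithmeticFunction.vonMangoldt n

/-- the variance `G(x, q)` of the problem -/
noncomputable def G (x : ℝ) (q : ℕ) : ℝ :=
  ∑ a ∈ (Finset.range q).filter (fun a => a.Coprime q), (psi x q a - x / q.totient) ^ 2

/-- the mean of `G(x, q) / (x log q)` over `q ^ a ≤ x ≤ q ^ b` with respect to `dx / x` -/
noncomputable def logMean (q : ℕ) (a b : ℝ) : ℝ :=
  (∫ x in ((q : ℝ) ^ a)..((q : ℝ) ^ b), G x q / x ^ 2) / ((b - a) * Real.log q ^ 2)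

/-- the Abel mean of `G(x, q) / (x log q)` with respect to `dx / x`, with the weight
`(2 δ / log q) x ^ (- 2 δ / log q)` of total mass one on `[1, ∞)` -/
noncomputable def abelMean (q : ℕ) (δ : ℝ) : ENNReal :=
  ENNReal.ofReal (2 * δ) * ((∫⁻ x in Ioi (1 : ℝ), ENNReal.ofReal
    (G x q * x ^ (-2 - 2 * δ / Real.log q))) / ENNReal.ofReal (Real.log q ^ 2))

/-- the generalized Riemann hypothesis for all Dirichlet characters -/
def GRH : Prop := ∀ (q : ℕ) [NeZero q] (χ : DirichletCharacter ℂ q) (s : ℂ),
  1 / 2 < s.re → s ≠ 1 → DirichletCharacter.LFunction χ s ≠ 0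

/-- the nonprincipal characters modulo `q` -/
noncomputable def nonprincipal (q : ℕ) [NeZero q] : Finset (DirichletCharacter ℂ q) := by
  classical exact Finset.univ.filter (fun χ => χ ≠ 1)

/-- the nontrivial zeros of `L(s, χ)` -/
def zeros {q : ℕ} [NeZero q] (χ : DirichletCharacter ℂ q) : Set ℂ :=
  {s : ℂ | DirichletCharacter.LFunction χ s = 0 ∧ 0 < s.re ∧ s.re < 1}

/-- the multiplicity of a zero -/
noncomputable def mult {q : ℕ} [NeZero q] (χ : DirichletCharacter ℂ q) (s : ℂ) : ℕ :=
  analyticOrderNatAt (DirichletCharacter.LFunction χ) s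

/-- the number of the nontrivial zeros, with multiplicity, with ordinate at distance at most `d`
from `t` -/
noncomputable def near {q : ℕ} [NeZero q] (χ : DirichletCharacter ℂ q) (d t : ℝ) : ℕ :=
  ∑ᶠ s ∈ {s : ℂ | s ∈ zeros χ ∧ |s.im - t| ≤ d}, mult χ s

/-- the number of the pairs of zeros (of one L-function) with ordinates at distance at most
`A / log q`, weighted by `1 / (1/4 + γ ^ 2)` and normalised by `φ(q) log q`, summed over the
nonprincipal characters modulo `q` -/
noncomputable def pairs (q : ℕ) [NeZero q] (A : ℝ) : ℝ :=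
  1 / (Real.log q * q.totient) * ∑ χ ∈ nonprincipal q, ∑' s : zeros χ,
    (mult χ s : ℝ) * (near χ (A / Real.log q) (s : ℂ).im : ℝ) / (1 / 4 + (s : ℂ).im ^ 2)

/-- the conjectured limit of `pairs q A` -/
noncomputable def sine (A : ℝ) : ℝ :=
  1 + 1 / Real.pi * ∫ v in (0 : ℝ)..A, (1 - (Real.sin (v / 2) / (v / 2)) ^ 2)

/-- **Hooley's formula on logarithmic average and the pair correlation of the zeros modulo `q`.** -/
theorem result : List.TFAE [
    -- Hooley's asymptotic formula on logarithmic average over all windows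
    ∀ a b : ℝ, 1 ≤ a → a < b → Tendsto (fun q : ℕ => logMean q a b) atTop (𝓝 1),
    -- its upper half
    ∀ a b : ℝ, 1 ≤ a → a < b → ∀ ε : ℝ, 0 < ε → ∀ᶠ q : ℕ in atTop, logMean q a b ≤ 1 + ε,
    -- the asymptotic formula for the Abel means
    ∀ δ : ℝ, 0 < δ → Tendsto (fun q : ℕ => abelMean q δ) atTop
      (𝓝 (ENNReal.ofReal ((1 - Real.exp (-2 * δ)) / (2 * δ)))),
    -- the generalized Riemann hypothesis and the pair correlation of the zeros modulo `q`
    GRH ∧ ∀ A ε : ℝ, 0 < A → 0 < ε → ∃ q0 : ℕ, ∀ (q : ℕ) [NeZero q], q0 ≤ q →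
      |pairs q A - sine A| ≤ ε,
    -- the generalized Riemann hypothesis and the upper half of the pair correlation
    GRH ∧ ∀ A ε : ℝ, 0 < A → 0 < ε → ∃ q0 : ℕ, ∀ (q : ℕ) [NeZero q], q0 ≤ q →
      pairs q A ≤ sine A + ε,
    -- the generalized Riemann hypothesis and the lower half of the pair correlation
    GRH ∧ ∀ A ε : ℝ, 0 < A → 0 < ε → ∃ q0 : ℕ, ∀ (q : ℕ) [NeZero q], q0 ≤ q →
      sine A - ε ≤ pairs q A] := by
  have h1 := Pool.Agent.H862.VP.All.mainUV
  have h2 := Pool.Agent.H862.VP.All.mainWV
  have h3 := Pool.Agent.H862.VP.All.mainWV2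
  have e12 := h1.2.1
  have e13 := h1.2.2.1
  have e14 := h2
  have e15 := h3.1
  have e16 := h3.2
  tfae_have 1 ↔ 2 := e12
  tfae_have 1 ↔ 3 := e13
  tfae_have 1 ↔ 4 := e14
  tfae_have 1 ↔ 5 := e15
  tfae_have 1 ↔ 6 := e16
  tfae_finish

end Pool.Agent.Results.MP_5d318d_nt.LogAveragePairCorrelation
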