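import Pool.Agent.H414.LT.Che
import Pool.Agent.H414.GE.Exp
import Pool.Agent.H414.GE.Sel
import Pool.Agent.H414.GV.Sg
import Pool.Agent.H414.GV.Pb
import Pool.Agent.H414.GV.Pc
import Pool.Agent.H414.GV.Pg
import Pool.Agent.H414.GV.Btp
import Pool.Agent.H414.GV.T4

/-!
# The generalized Riemann hypothesis, with arbitrary twists, does not give the order of Hooley's variance

For any bounded twists `c j : ℕ → ℂ` and any moduli `Q k` with `X ^ ε ≤ Q k ≤ X ^ (1 - ε)`, `X = 2 ^ k`, there is a set `P` of
primes of relative density one, which is as close to the primes as square root cancellation in all sums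
twisted by all Dirichlet characters of all moduli can tell (`Close`), for which the variance

`∑_{a mod Q, (a, Q) = 1} |π_P(y; Q, a) - π_P(y) / φ(Q)| ^ 2`

is at least `c₀ X` for `Q = Q k` and for `y = X` or `y = 2 X`, for all large `k`. With the weights `log p` in place of `1` this
corresponds to `c₀ X (log X) ^ 2`, whereas Hooley's conjecture is `X log Q` (in our normalisation:
`X log Q / (log X) ^ 2`). So the bounds which the generalized Riemann hypothesis gives for the sums of characters do not
even imply the conjectured order of magnitude of the variance, for any prescribed sequence of moduli, even if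
such bounds were known with countably many arbitrary twists.

Proof. In the block `(2 ^ k, 2 ^ (k + 1)]` choose random signs `ω_u` for the reduced classes `u` modulo `Q`, and remove from the
primes `p` of the class `u` a random set with the probability `1 / (2 k + 2) + b ω_u`, where `b` is a small constant times
`k (φ(Q) / 2 ^ k) ^ (1 / 2)`. By the Brun-Titchmarsh inequality the variance of all twisted sums is at most `2 ^ k`.
-/

set_option autoImplicit false

namespace Pool.Agent.Results.MP_5d318d_nt.VarianceUnderGRH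

open Pool.Agent.H414.GE (Close)
open Pool.Agent.H414.GV

/-- Relative density one sets of primes with square root cancellation for all characters with arbitrary twists
and with variance at least `c₀ 2 ^ k` modulo `Q k`. -/
theorem result : ∀ (ε : ℝ) (Q : ℕ → ℕ), 0 < ε → ε < 1 →
    (∃ k₀ : ℕ, ∀ k : ℕ, k₀ ≤ k →
      (2 : ℝ) ^ (ε * k) ≤ Q k ∧ (Q k : ℝ) ≤ (2 : ℝ) ^ ((1 - ε) * k)) →
    ∀ c : ℕ → ℕ → ℂ, (∀ j n, ‖c j n‖ ≤ 1) →
    ∃ (P : Set ℕ) (w : ℕ → ℝ) (c₀ : ℝ) (k₁ : ℕ), 0 < c₀ ∧ (∀ p ∈ P, p.Prime) ∧
      (∀ k : ℕ, 1 - 1 / ((k : ℝ) + 1) ≤ w k ∧ w k ≤ 1) ∧ Close P w c ∧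
      ∀ k, k₁ ≤ k → ∃ y : ℕ, (y = 2 ^ k ∨ y = 2 ^ (k + 1)) ∧ c₀ * 2 ^ k ≤ varQ P y (Q k) :=
  t4 Pool.Agent.H414.LT.che btp (pg (pc (pb (sg Pool.Agent.H414.GE.exq)
    (Pool.Agent.H414.GE.sele Pool.Agent.H414.GE.exq))))

end Pool.Agent.Results.MP_5d318d_nt.VarianceUnderGRH
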